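import Pool.Agent.J6H36.RF.Stm
import Pool.Agent.J6H36.LF.Law

/-!
# Rational function fields
-/

set_option autoImplicit false

universe u

namespace Pool.Agent.J6H36.RF

open Cardinal Polynomial Pool.Agent.J6H36.BSV

/-- the residue field `F[t] / π` of the point `π = 0` of the affine line -/
def Kap (F : Type u) [Field F] (π : F[X]) : Type u := F[X] ⧸ Ideal.span {π}

noncomputable instance instCommRingKap (F : Type u) [Field F] (π : F[X]) : CommRing (Kap F π) :=
  inferInstanceAs (CommRing (F[X] ⧸ Ideal.span {π}))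

/-- residue maps from `H^{i+1}(F(t), ℚ(n+1))` to `H^i(F[t] / π, ℚ(n))` -/
def Residues (T : Theory2.{u}) : Type (u + 1) :=
  ∀ (i : ℤ) (n : ℕ) (F : Type u) [Field F] (π : F[X]),
    T.H (i + 1) (n + 1) (RatFunc F) →ₗ[ℚ] T.H i n (Kap F π)

/-- for every `π` and every class `y` over `F[t] / π` there is a class with residue `y` at `π` and no other residues -/
def ResSurj (T : Theory2.{u}) (r : Residues T) : Prop :=
  ∀ (i : ℤ) (n : ℕ) (F : Type u) [Field F] (π : F[X]), π.Monic → Irreducible π →
    ∀ y : T.H i n (Kap F π), ∃ x : T.H (i + 1) (n + 1) (RatFunc F), r i n F π x = y ∧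
      ∀ π' : F[X], π'.Monic → Irreducible π' → π' ≠ π → r i n F π' x = 0

/-- a class without residues is constant -/
def ResExact (T : Theory2.{u}) (r : Residues T) : Prop :=
  ∀ (i : ℤ) (n : ℕ) (F : Type u) [Field F] (x : T.H (i + 1) (n + 1) (RatFunc F)),
    (∀ π : F[X], π.Monic → Irreducible π → r i n F π x = 0) →
    ∃ y : T.H (i + 1) (n + 1) F, T.map (i + 1) (n + 1) (algebraMap F (RatFunc F)) y = x

/-- `H^i(P, ℚ(n))` is finite-dimensional for prime fields `P`, `i ≤ 1`, `n ≥ 2` (Borel, Quillen) -/
def PrimeFinite (T : Theory2.{u}) : Prop :=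
  ∀ (i : ℤ) (n : ℕ) (P : Type) [Field P] (K : Type u) [Field K] [Algebra P K],
    (⊥ : Subfield P) = ⊤ → Function.Surjective (algebraMap P K) → i ≤ 1 → 2 ≤ n →
    Module.Finite ℚ (T.H i n K)

/-- A theory of rational motivic cohomology with the localization sequence of the affine line over any field. -/
structure Theory4 extends Theory2.{u} where
  /-- the residue at the closed point `π = 0` of the affine line, `π` irreducible -/
  resP : Residues toTheory2
  /-- classes with one given residue and all others zero -/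
  resP_surj : ResSurj toTheory2 resP
  /-- a class without residues is constant -/
  resP_exact : ResExact toTheory2 resP
  /-- finiteness for the prime fields (Borel, Quillen) -/
  prime_fin : PrimeFinite toTheory2

variable (T : Theory4.{u}) (i : ℤ) (n : ℕ) (P : Type) [Field P]

theorem zero_of_equiv {R S : Type u} [CommRing R] [CommRing S] (e : R ≃+* S)
    (h : ∀ x : T.H i n S, x = 0) (x : T.H i n R) : x = 0 := by
  have h1 : T.map i n (e.symm : S →+* R) (T.map i n (e : R →+* S) x) = x := by
    rw [← T.map_comp]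
    have h3 : (e.symm : S →+* R).comp (e : R →+* S) = RingHom.id _ :=
      RingHom.ext fun z => e.symm_apply_apply z
    rw [h3, T.map_id]
  rw [← h1, h (T.map i n (e : R →+* S) x), map_zero]

theorem fin_of_equiv {R S : Type u} [CommRing R] [CommRing S] (e : R ≃+* S)
    [Module.Finite ℚ (T.H i n R)] : Module.Finite ℚ (T.H i n S) := by
  refine Module.Finite.of_surjective (T.map i n (e : R →+* S)) fun x => ?_
  refine ⟨T.map i n (e.symm : S →+* R) x, ?_⟩
  rw [← T.map_comp]
  have h3 : (e : R →+* S).comp (e.symm : S →+* R) = RingHom.id _ :=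
    RingHom.ext fun z => e.apply_symm_apply z
  rw [h3, T.map_id]

/-- the residue field of a closed point of the affine line -/
theorem exists_residue_field {F : Type u} [Field F] (π : F[X]) (h : Irreducible π) :
    ∃ (K : Type u) (_ : Field K), Nonempty (Kap F π ≃+* K) := by
  have hm : (Ideal.span {π}).IsMaximal := PrincipalIdealRing.isMaximal_of_irreducible h
  exact ⟨F[X] ⧸ Ideal.span {π}, Ideal.Quotient.field _, ⟨RingEquiv.refl (F[X] ⧸ Ideal.span {π})⟩⟩

theorem surj_of_PT_zero {K : Type u} [Field K] [Algebra P K] (h : PT P K 0) :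
    Function.Surjective (algebraMap P K) := by
  obtain ⟨t, -, ht⟩ := h
  intro x
  have h1 : x ∈ IntermediateField.adjoin P (Set.range t) := by rw [ht]; trivial
  rw [Set.range_eq_empty t, IntermediateField.adjoin_empty] at h1
  exact IntermediateField.mem_bot.mp h1

theorem fwd (hP : (⊥ : Subfield P) = ⊤) (hD : S_DOWN.{u}) (hi : i ≤ 0) (hn : 1 ≤ n)
    (h : ∀ (E : Type u) [Field E] [Algebra P E] (x : T.H i n E), x = 0) :
    ∀ (d : ℕ) (K : Type u) [Field K] [Algebra P K], PT P K d →
      Module.Finite ℚ (T.H (i + 1) (n + 1) K) := by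
  intro d
  induction d with
  | zero =>
    intro K _ _ hK
    exact T.prime_fin (i + 1) (n + 1) P K hP (surj_of_PT_zero P hK) (by omega) (by omega)
  | succ d ih =>
    intro K _ _ hK
    obtain ⟨F, hF, ⟨e⟩⟩ := hD P K d hK
    have h1 := ih F hF
    have h2 : Module.Finite ℚ (T.H (i + 1) (n + 1) (RatFunc F)) := by
      refine Module.Finite.of_surjective (T.map (i + 1) (n + 1) (algebraMap F (RatFunc F)))
        fun x => ?_
      refine T.resP_exact i n F x fun π hm hirr => ?_
      obtain ⟨κ, _, ⟨e'⟩⟩ := exists_residue_field π hirr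
      let g : P →+* κ := (e' : Kap F π →+* κ).comp
        ((Ideal.Quotient.mk (Ideal.span {π}) : F[X] →+* Kap F π).comp (C.comp (algebraMap P F)))
      let _ : Algebra P κ := g.toAlgebra
      exact zero_of_equiv T i n e' (fun x => h κ x) _
    exact fin_of_equiv T (i + 1) (n + 1) e

/-- `x` comes from the prime field of `K` -/
def FromPrime {K : Type u} [Field K] (x : T.H i n K) : Prop :=
  ∃ y : T.H i n (⊥ : Subfield K), T.map i n (Subfield.subtype ⊥) y = x

theorem fromPrime_map {F K : Type u} [Field F] [Field K] (f : F →+* K) (y : T.H i n F)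
    (h : FromPrime T i n y) : FromPrime T i n (T.map i n f y) := by
  obtain ⟨w, rfl⟩ := h
  have h1 : ∀ a : (⊥ : Subfield F), f a ∈ (⊥ : Subfield K) := by
    intro a
    have h2 : (⊥ : Subfield F) ≤ (⊥ : Subfield K).comap f := bot_le
    exact h2 a.2
  let g : (⊥ : Subfield F) →+* (⊥ : Subfield K) := (f.comp (Subfield.subtype ⊥)).codRestrict _ h1
  refine ⟨T.map i n g w, ?_⟩
  rw [← T.map_comp, ← T.map_comp]
  rfl

theorem fromPrime_of_surj (hP : (⊥ : Subfield P) = ⊤) {K : Type u} [Field K] [Algebra P K]
    (h : Function.Surjective (algebraMap P K)) (x : T.H i n K) : FromPrime T i n x := by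
  have h1 : ∀ a : K, a ∈ (⊥ : Subfield K) := by
    intro a
    obtain ⟨b, rfl⟩ := h a
    have h2 : (⊤ : Subfield P) ≤ (⊥ : Subfield K).comap (algebraMap P K) := by
      rw [← hP]
      exact bot_le
    exact h2 (Subfield.mem_top b)
  let g : K →+* (⊥ : Subfield K) := (RingHom.id K).codRestrict _ h1
  refine ⟨T.map i n g x, ?_⟩
  rw [← T.map_comp]
  have h2 : (Subfield.subtype ⊥).comp g = RingHom.id K := RingHom.ext fun a => rfl
  rw [h2, T.map_id]

/-- all classes are constant -/
theorem fwd_const (hP : (⊥ : Subfield P) = ⊤) (hD : S_DOWN.{u})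
    (h : ∀ (E : Type u) [Field E] [Algebra P E] (x : T.H i n E), x = 0) :
    ∀ (d : ℕ) (K : Type u) [Field K] [Algebra P K], PT P K d →
      ∀ x : T.H (i + 1) (n + 1) K, FromPrime T (i + 1) (n + 1) x := by
  intro d
  induction d with
  | zero =>
    intro K _ _ hK x
    exact fromPrime_of_surj T (i + 1) (n + 1) P hP (surj_of_PT_zero P hK) x
  | succ d ih =>
    intro K _ _ hK x
    obtain ⟨F, hF, ⟨e⟩⟩ := hD P K d hK
    obtain ⟨y, hy⟩ := T.resP_exact i n F
      (T.map (i + 1) (n + 1) (e.symm : K →+* RatFunc F) x) (fun π hm hirr => by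
        obtain ⟨κ, _, ⟨e'⟩⟩ := exists_residue_field π hirr
        let g : P →+* κ := (e' : Kap F π →+* κ).comp
          ((Ideal.Quotient.mk (Ideal.span {π}) : F[X] →+* Kap F π).comp (C.comp (algebraMap P F)))
        let _ : Algebra P κ := g.toAlgebra
        exact zero_of_equiv T i n e' (fun x => h κ x) _)
    have h1 := ih F hF y
    have h2 : x = T.map (i + 1) (n + 1) ((e : RatFunc F →+* K).comp (algebraMap F (RatFunc F))) y := by
      rw [T.map_comp, hy, ← T.map_comp]
      have h3 : (e : RatFunc F →+* K).comp (e.symm : K →+* RatFunc F) = RingHom.id _ :=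
        RingHom.ext fun z => e.apply_symm_apply z
      rw [h3, T.map_id]
    rw [h2]
    exact fromPrime_map T (i + 1) (n + 1) _ y h1

/-- constant classes form a finite-dimensional space -/
theorem fin_of_const (hP : (⊥ : Subfield P) = ⊤) (hi : i ≤ 1) (hn : 2 ≤ n) {K : Type u} [Field K]
    [Algebra P K] (h : ∀ x : T.H i n K, FromPrime T i n x) : Module.Finite ℚ (T.H i n K) := by
  have h1 : ∀ a : P, algebraMap P K a ∈ (⊥ : Subfield K) := by
    intro b
    have h2 : (⊤ : Subfield P) ≤ (⊥ : Subfield K).comap (algebraMap P K) := by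
      rw [← hP]
      exact bot_le
    exact h2 (Subfield.mem_top b)
  let g : P →+* (⊥ : Subfield K) := (algebraMap P K).codRestrict _ h1
  let _ : Algebra P (⊥ : Subfield K) := g.toAlgebra
  have hs : Function.Surjective (algebraMap P (⊥ : Subfield K)) := by
    rintro ⟨a, ha⟩
    have h3 : (⊥ : Subfield K) ≤ (algebraMap P K).fieldRange := bot_le
    obtain ⟨b, hb⟩ := h3 ha
    exact ⟨b, Subtype.ext hb⟩
  have h4 := T.prime_fin i n P (⊥ : Subfield K) hP hs hi hn
  exact Module.Finite.of_surjective (T.map i n (Subfield.subtype ⊥)) h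

theorem infinite_of_PT {F : Type u} [Field F] [Algebra P F] {d : ℕ} (h : PT P F (d + 1)) :
    Infinite F := by
  obtain ⟨t, ht, -⟩ := h
  have h1 : Transcendental P (t 0) := ht.transcendental 0
  have h2 : Function.Injective (fun q : P[X] => aeval (t 0) q) :=
    transcendental_iff_injective.mp h1
  exact Infinite.of_injective _ h2

theorem bwd (hP : (⊥ : Subfield P) = ⊤) (hU : S_UP.{u}) (hC : S_CLP.{u}) (hS : S_SEP.{u})
    (hi : i ≤ 0) (hn : 1 ≤ n)
    (h : ∀ (d : ℕ) (K : Type u) [Field K] [Algebra P K], PT P K d →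
      Module.Finite ℚ (T.H (i + 1) (n + 1) K))
    (E : Type u) [Field E] [Algebra P E] (x : T.H i n E) : x = 0 := by
  have : PerfectField P := Pool.Agent.J6H36.LF.perfect_prime P hP
  obtain ⟨Z, y0, hy0⟩ := T.lift i n E x
  obtain ⟨L, d, F, hZL, hF, hfd, hsep⟩ := hS P E Z
  have hcl : Subring.closure (Z : Set E) ≤ L.toSubring := by
    rw [Subring.closure_le]
    exact hZL
  let y : T.H i n L := T.map i n (Subring.inclusion hcl : _ →+* L) y0
  have hy : T.map i n (algebraMap L E) y = x := by
    rw [← T.map_comp, ← hy0]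
    rfl
  suffices hy00 : y = 0 by rw [← hy, hy00, map_zero]
  rcases d with _ | d
  · have h1 := surj_of_PT_zero P hF
    have h2 : Algebra.IsAlgebraic P F := ⟨fun z => by
      obtain ⟨w, hw⟩ := h1 z
      rw [← hw]
      exact isAlgebraic_algebraMap w⟩
    have h3 : Algebra.IsAlgebraic P L := Algebra.IsAlgebraic.trans P F L
    exact T.base i n P L hP hi hn y
  · by_contra hy00
    have hinf : Infinite F := infinite_of_PT P hF
    obtain ⟨π, hπ, hπ2⟩ := hC F L
    have hfin := h (d + 2) (RatFunc F) (hU P F (d + 1) hF)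
    let ek : ∀ k, L ≃+* Kap F (π k) := fun k => (hπ2 k).2.2.some
    choose z hz1 hz2 using fun k => T.resP_surj i n F (π k) (hπ2 k).1 (hπ2 k).2.1
      (T.map i n (ek k : L →+* Kap F (π k)) y)
    have hne : ∀ k, T.map i n (ek k : L →+* Kap F (π k)) y ≠ 0 := by
      intro k hk
      apply hy00
      have h1 : T.map i n ((ek k).symm : Kap F (π k) →+* L)
          (T.map i n (ek k : L →+* Kap F (π k)) y) = y := by
        rw [← T.map_comp]
        have h3 : ((ek k).symm : Kap F (π k) →+* L).comp (ek k : L →+* Kap F (π k)) =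
            RingHom.id _ := RingHom.ext fun z => (ek k).symm_apply_apply z
        rw [h3, T.map_id]
      rw [← h1, hk, map_zero]
    have hli : LinearIndependent ℚ z := by
      rw [linearIndependent_iff']
      intro s c hc k hk
      have h1 := congrArg (T.resP i n F (π k)) hc
      rw [map_sum, map_zero, Finset.sum_eq_single k] at h1
      · rw [map_smul, hz1] at h1
        exact (smul_eq_zero.mp h1).resolve_right (hne k)
      · intro l _ hl
        rw [map_smul, hz2 l (π k) (hπ2 k).1 (hπ2 k).2.1 (fun heq => hl (hπ heq).symm), smul_zero]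
      · intro hk'
        exact absurd hk hk'
    exact Module.Finite.not_linearIndependent_of_infinite z hli

end Pool.Agent.J6H36.RF
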