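import Pool.Agent.J6H36.BSV.Defs3

/-!
# Project RF (helper36): rational function fields and the Beilinson-Soulé vanishing (hard MP_e2821c_ag, fourth part)

Goal: for `i ≤ 0 < n` and a prime field `P`: `H^i(E, ℚ(n)) = 0` for all fields `E` over `P` iff `H^{i+1}(P(t_1, …, t_d), ℚ(n+1))` is
finite-dimensional for all `d`.
-/

set_option autoImplicit false

universe u

namespace Pool.Agent.J6H36.RF

open Cardinal Polynomial Pool.Agent.J6H36.BSV

/-- `K = P(t_1, …, t_d)`, a rational function field in `d` variables -/
def PT (P : Type) [Field P] (K : Type u) [Field K] [Algebra P K] (d : ℕ) : Prop :=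
  ∃ t : Fin d → K, AlgebraicIndependent P t ∧ IntermediateField.adjoin P (Set.range t) = ⊤

/-- Module DOWN: a rational function field in `d + 1` variables is one in one variable over one in `d` variables.

Proof.  `F = IntermediateField.adjoin P (range (t ∘ Fin.castSucc))`; `t (Fin.last d)` is transcendental over `F`
(`AlgebraicIndependent.option_iff` / `algebraicIndependent_of_...`, `transcendental`) and generates `K` over `F`, so `X ↦ t (last d)` extends to an
isomorphism `RatFunc F ≃ K` (`RatFunc.liftAlgHom`, or `IntermediateField.adjoin_simple... transcendental` equivalence in Mathlib). -/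
def S_DOWN : Prop := ∀ (P : Type) [Field P] (K : Type u) [Field K] [Algebra P K] (d : ℕ),
  PT P K (d + 1) → ∃ F : IntermediateField P K, PT P F d ∧ Nonempty (RatFunc F ≃+* K)

/-- Module UP: adding one variable.

Proof.  The family `Fin.snoc (algebraMap ∘ t) X` in `RatFunc F`; `X` is transcendental over `F`. -/
def S_UP : Prop := ∀ (P : Type) [Field P] (F : Type u) [Field F] [Algebra P F] (d : ℕ),
  PT P F d → PT P (RatFunc F) (d + 1)

/-- Module CLP: a finite separable extension of an infinite field is the residue field of infinitely many points of the affine line.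

Proof.  `L = F(a)` (`Field.exists_primitive_element`), `μ` the minimal polynomial of `a`, `μ_c` the minimal polynomial of `a + c`, `c : F`, equal to
`μ(X - c)`: monic and irreducible, and `F[X] ⧸ (μ_c) ≅ F(a + c) = L` (`AdjoinRoot`, `IntermediateField.adjoinRootEquivAdjoin`).  `μ_c(0) = μ(-c)`, and the nonconstant
polynomial `μ(-X)` takes each value finitely often, so infinitely many of the `μ_c` are distinct (`Set.infinite_of_...`, then an injection from `ℕ`). -/
def S_CLP : Prop := ∀ (F L : Type u) [Field F] [Field L] [Algebra F L] [FiniteDimensional F L]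
  [Algebra.IsSeparable F L] [Infinite F], ∃ π : ℕ → F[X], Function.Injective π ∧
    ∀ k, (π k).Monic ∧ Irreducible (π k) ∧ Nonempty (L ≃+* (F[X] ⧸ Ideal.span {π k}))

/-- Module SEP: a finitely generated field over a perfect field is finite separable over a rational function field.

Proof.  As in Pool/Agent/J6H27/LF/Model.lean (first part of `t_MODEL`): `L = adjoin P Z`,
`exists_isTranscendenceBasis_and_isSeparable_of_perfectField`. -/
def S_SEP : Prop := ∀ (P : Type) [Field P] [PerfectField P] (E : Type u) [Field E] [Algebra P E]
  (Z : Finset E), ∃ (L : IntermediateField P E) (d : ℕ) (F : IntermediateField P L),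
    (Z : Set E) ⊆ L ∧ PT P F d ∧ FiniteDimensional F L ∧ Algebra.IsSeparable F L

end Pool.Agent.J6H36.RF
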